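import Mathlib

/-!
# REC-R_DUA: the abstract duality by counting
-/

set_option autoImplicit false

namespace Pool.Agent.Helper70.REC

section add

variable {p : ℕ} [Fact p.Prime] {V : Type} [AddCommGroup V]

theorem add_hom0 [Module (ZMod p) V] {b : V} (hb : b ≠ 0) : ∃ f : V →+ ZMod p, f b ≠ 0 := by
  have h1 : ¬ ∀ f : Module.Dual (ZMod p) V, f b = 0 := by
    rw [Module.forall_dual_apply_eq_zero_iff]
    exact hb
  push Not at h1
  obtain ⟨f, hf⟩ := h1
  exact ⟨f.toAddMonoidHom, hf⟩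

theorem add_hom (hV : ∀ x : V, p • x = 0) {b : V} (hb : b ≠ 0) : ∃ f : V →+ ZMod p, f b ≠ 0 :=
  @add_hom0 p _ V _ (AddCommGroup.zmodModule hV) b hb

theorem add_card0 [Module (ZMod p) V] [Finite V] :
    Finite (V →+ ZMod p) ∧ Nat.card (V →+ ZMod p) = Nat.card V := by
  have e : (V →+ ZMod p) ≃ Module.Dual (ZMod p) V :=
    { toFun := fun f => AddMonoidHom.toZModLinearMap p f
      invFun := fun f => f.toAddMonoidHom
      left_inv := fun f => rfl
      right_inv := fun f => rfl }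
  have hf : Module.Finite (ZMod p) V := Module.Finite.of_finite
  have h1 : Nat.card (Module.Dual (ZMod p) V) = Nat.card V := by
    rw [Module.natCard_eq_pow_finrank (K := ZMod p) (V := Module.Dual (ZMod p) V),
      Subspace.dual_finrank_eq, ← Module.natCard_eq_pow_finrank (K := ZMod p)]
  have h2 : Finite (Module.Dual (ZMod p) V) := Module.finite_of_finite (ZMod p)
  exact ⟨Finite.of_equiv _ e.symm, by rw [Nat.card_congr e, h1]⟩

theorem add_card (hV : ∀ x : V, p • x = 0) [Finite V] :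
    Finite (V →+ ZMod p) ∧ Nat.card (V →+ ZMod p) = Nat.card V :=
  @add_card0 p _ V _ (AddCommGroup.zmodModule hV) _

end add

variable {p : ℕ} [Fact p.Prime] {G : Type} [CommGroup G]

omit [Fact p.Prime] in
theorem quot_tors (N : Subgroup G) (hN : ∀ x : G, x ^ p ∈ N) (x : Additive (G ⧸ N)) :
    p • x = 0 := by
  obtain ⟨g, hg⟩ := QuotientGroup.mk_surjective (Additive.toMul x)
  have h1 : x = Additive.ofMul ((g : G ⧸ N)) := by rw [hg]; rfl
  rw [h1, ← ofMul_pow, ← QuotientGroup.mk_pow, (QuotientGroup.eq_one_iff _).2 (hN g)]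
  rfl

/-- A homomorphism which is not trivial at an element outside of the subgroup. -/
theorem exists_hom (N : Subgroup G) (hN : ∀ x : G, x ^ p ∈ N) {b : G} (hb : b ∉ N) :
    ∃ φ : G →* Multiplicative (ZMod p), φ b ≠ 1 := by
  obtain ⟨f, hf⟩ := add_hom (quot_tors N hN) (b := Additive.ofMul ((b : G ⧸ N))) (by
    intro h2
    apply hb
    have h3 : ((b : G ⧸ N)) = 1 := h2
    exact (QuotientGroup.eq_one_iff _).1 h3)
  exact ⟨MonoidHom.mk' (fun x => Multiplicative.ofAdd (f (Additive.ofMul ((x : G ⧸ N)))))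
    (fun a b => by rw [QuotientGroup.mk_mul, ofMul_mul, map_add]; rfl), hf⟩

/-- The number of the homomorphisms which are trivial on `N`. -/
theorem dual_count (N : Subgroup G) (hN : ∀ x : G, x ^ p ∈ N) (d : ℕ)
    (hA : ∀ A : Finset G, (∀ x ∈ A, ∀ y ∈ A, x ≠ y → x / y ∉ N) → A.card ≤ d)
    (H : Finset (G → ZMod p)) (hH : ∀ f ∈ H, (∀ a b, f (a * b) = f a + f b) ∧ ∀ x ∈ N, f x = 0) :
    H.card ≤ d := by
  classical
  have hQ : ∀ B : Finset (G ⧸ N), B.card ≤ d := by
    intro B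
    have h1 : (B.image Quotient.out).card = B.card :=
      Finset.card_image_of_injective _ Quotient.out_injective
    rw [← h1]
    apply hA
    intro x hx y hy hxy h2
    obtain ⟨q, hq, rfl⟩ := Finset.mem_image.1 hx
    obtain ⟨r, hr, rfl⟩ := Finset.mem_image.1 hy
    apply hxy
    have h3 : ((q.out : G) : G ⧸ N) = ((r.out : G) : G ⧸ N) := by
      rw [QuotientGroup.eq_iff_div_mem]
      exact h2
    rw [QuotientGroup.out_eq', QuotientGroup.out_eq'] at h3
    rw [h3]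
  have hfin : Finite (G ⧸ N) := by
    by_contra hinf
    rw [not_finite_iff_infinite] at hinf
    obtain ⟨B, hB⟩ := Infinite.exists_subset_card_eq (G ⧸ N) (d + 1)
    have := hQ B
    omega
  have hcard : Nat.card (G ⧸ N) ≤ d := by
    have := Fintype.ofFinite (G ⧸ N)
    rw [Nat.card_eq_fintype_card, ← Finset.card_univ]
    exact hQ _
  have hfin' : Finite (Additive (G ⧸ N)) := hfin
  obtain ⟨hf1, hf2⟩ := add_card (quot_tors N hN)
  have hc2 : Nat.card (Additive (G ⧸ N)) = Nat.card (G ⧸ N) := rfl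
  -- the map from `H`
  have key : ∀ f : H, ∃ g : Additive (G ⧸ N) →+ ZMod p, ∀ x : G,
      g (Additive.ofMul ((x : G ⧸ N))) = f.1 x := by
    intro f
    obtain ⟨h1, h2⟩ := hH f.1 f.2
    let φ : G →* Multiplicative (ZMod p) :=
      MonoidHom.mk' (fun x => Multiplicative.ofAdd (f.1 x)) (fun a b => by rw [h1]; rfl)
    let ψ : G ⧸ N →* Multiplicative (ZMod p) := QuotientGroup.lift N φ (fun x hx => by
      change Multiplicative.ofAdd (f.1 x) = 1
      rw [h2 x hx]; rfl)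
    exact ⟨MonoidHom.toAdditiveLeft ψ, fun x => rfl⟩
  choose g hg using key
  have hinj : Function.Injective g := by
    intro f f' h
    apply Subtype.ext
    funext x
    rw [← hg f x, ← hg f' x, h]
  have h3 := Nat.card_le_card_of_injective g hinj
  rw [hf2, hc2, Nat.card_eq_fintype_card, Fintype.card_coe] at h3
  exact h3.trans hcard

/-- The duality. -/
theorem dua_core (U Λ : Subgroup G) (P : G → Prop) (Bf : G → G → ZMod p) (e : ℕ)
    (hΛ : ∀ x : G, x ^ p ∈ Λ)
    (hI : ∀ A : Finset G, (∀ x ∈ A, ∀ y ∈ A, x ≠ y → x / y ∉ Λ) → A.card ≤ p ^ (2 * e))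
    (A0 : Finset G) (hA0 : A0.card = p ^ e) (hAU : ∀ x ∈ A0, x ∈ U)
    (hAP : ∀ x ∈ A0, ∀ y ∈ A0, x ≠ y → ¬ P (x / y))
    (hUL : ∀ x ∈ U, x ∈ Λ → P x)
    (hB1 : ∀ β ∈ U, ∀ a b, Bf β (a * b) = Bf β a + Bf β b)
    (hB2 : ∀ β ∈ U, ∀ β' ∈ U, ∀ a, Bf (β * β') a = Bf β a + Bf β' a)
    (hBU : ∀ β ∈ U, ∀ u ∈ U, Bf β u = 0) (hBL : ∀ β ∈ U, ∀ x ∈ Λ, Bf β x = 0)
    (hB0 : ∀ β ∈ U, (∀ a, Bf β a = 0) → P β)
    (f : G → ZMod p) (hf : ∀ a b, f (a * b) = f a + f b) (hfU : ∀ u ∈ U, f u = 0)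
    (hfL : ∀ x ∈ Λ, f x = 0) : ∃ β ∈ U, ∀ a, f a = Bf β a := by
  classical
  have hp : 0 < p := (Fact.out : p.Prime).pos
  have hsup : ∀ g : G → ZMod p, (∀ a b, g (a * b) = g a + g b) → (∀ u ∈ U, g u = 0) →
      (∀ x ∈ Λ, g x = 0) → ∀ x ∈ U ⊔ Λ, g x = 0 := by
    intro g h1 h2 h3 x hx
    obtain ⟨u, hu, l, hl, rfl⟩ := Subgroup.mem_sup.1 hx
    rw [h1, h2 u hu, h3 l hl, add_zero]
  have hN : ∀ x : G, x ^ p ∈ U ⊔ Λ := fun x => Subgroup.mem_sup_right (hΛ x)
  have hcnt : ∀ A : Finset G, (∀ x ∈ A, ∀ y ∈ A, x ≠ y → x / y ∉ U ⊔ Λ) → A.card ≤ p ^ e := by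
    intro A hA
    have hkey : ∀ x ∈ A, ∀ y ∈ A, ∀ a ∈ A0, ∀ b ∈ A0, (x * a) / (y * b) ∈ Λ → x = y ∧ a = b := by
      intro x hx y hy a ha b hb h
      have h1 : x = y := by
        by_contra hne
        apply hA x hx y hy hne
        have h2 : x / y = (b / a) * ((x * a) / (y * b)) := by
          rw [div_mul_div_comm, div_eq_div_iff_mul_eq_mul]
          ac_rfl
        rw [h2]
        exact Subgroup.mul_mem _
          (Subgroup.mem_sup_left (U.div_mem (hAU b hb) (hAU a ha))) (Subgroup.mem_sup_right h)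
      refine ⟨h1, ?_⟩
      by_contra hne
      apply hAP a ha b hb hne
      apply hUL _ (U.div_mem (hAU a ha) (hAU b hb))
      rw [h1, mul_div_mul_left_eq_div] at h
      exact h
    have hinj : Set.InjOn (fun q : G × G => q.1 * q.2) ((A ×ˢ A0 : Finset (G × G)) : Set (G × G)) := by
      rintro ⟨x, a⟩ h1 ⟨y, b⟩ h2 h3
      have h1' := Finset.mem_product.1 (Finset.mem_coe.1 h1)
      have h2' := Finset.mem_product.1 (Finset.mem_coe.1 h2)
      have h4 : x * a = y * b := h3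
      have h5 := hkey x h1'.1 y h2'.1 a h1'.2 b h2'.2 (by rw [h4, div_self']; exact Λ.one_mem)
      rw [h5.1, h5.2]
    have h6 := hI ((A ×ˢ A0).image (fun q : G × G => q.1 * q.2)) (by
      intro z hz w hw hzw h7
      obtain ⟨⟨x, a⟩, h1, rfl⟩ := Finset.mem_image.1 hz
      obtain ⟨⟨y, b⟩, h2, rfl⟩ := Finset.mem_image.1 hw
      have h1' := Finset.mem_product.1 h1
      have h2' := Finset.mem_product.1 h2
      have h5 := hkey x h1'.1 y h2'.1 a h1'.2 b h2'.2 h7
      apply hzw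
      change x * a = y * b
      rw [h5.1, h5.2])
    rw [Finset.card_image_of_injOn hinj, Finset.card_product, hA0, two_mul, pow_add] at h6
    exact Nat.le_of_mul_le_mul_right h6 (Nat.pow_pos hp)
  by_contra hcon
  push Not at hcon
  have hfn : f ∉ A0.image Bf := by
    intro h
    obtain ⟨β, hβ, h1⟩ := Finset.mem_image.1 h
    obtain ⟨a, ha⟩ := hcon β (hAU β hβ)
    exact ha (congrFun h1 a).symm
  have hinj : Set.InjOn Bf (A0 : Set G) := by
    intro x hx y hy hxy
    by_contra hne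
    have hxU := hAU x hx
    have hyU := hAU y hy
    apply hAP x hx y hy hne
    apply hB0 _ (U.div_mem hxU hyU)
    intro a
    have h1 := hB2 (x / y) (U.div_mem hxU hyU) y hyU a
    rw [div_mul_cancel, hxy] at h1
    exact (right_eq_add.1 h1)
  have h8 := dual_count (U ⊔ Λ) hN (p ^ e) hcnt (insert f (A0.image Bf)) (by
    intro g hg
    rcases Finset.mem_insert.1 hg with rfl | hg
    · exact ⟨hf, hsup _ hf hfU hfL⟩
    · obtain ⟨β, hβ, rfl⟩ := Finset.mem_image.1 hg
      have hU := hAU β hβ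
      exact ⟨hB1 β hU, hsup _ (hB1 β hU) (hBU β hU) (hBL β hU)⟩)
  rw [Finset.card_insert_of_notMem hfn, Finset.card_image_of_injOn hinj, hA0] at h8
  omega

end Pool.Agent.Helper70.REC
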