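import Pool.Agent.Helper51.REC.Goals3
import Pool.Agent.Helper42.PP.SMF
import Pool.Agent.Helper70.REC.DUAL

/-!
# REC-R_DUA: duality
-/

set_option autoImplicit false

namespace Pool.Agent.Helper70.REC

open NumberField Module IsDedekindDomain Pool.Agent.Helper51.RP Pool.Agent.Helper42.PP
  Pool.Agent.Helper51.REC

variable {F : Type} [Field F] [NumberField F]

/-- The group of `LocS`. -/
def locG (h2 : K_LOC) (p : ℕ) [Fact p.Prime] (S : Set (HeightOneSpectrum (𝓞 F))) (hS : S.Finite) :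
    Subgroup Fˣ where
  carrier := {x | LocS p S x}
  mul_mem' := fun {a b} ha hb => (h2 p F S hS).1 a b ha hb
  one_mem' := by
    have h := (h2 p F S hS).2.2.1 1
    rw [one_pow] at h
    exact h
  inv_mem' := fun {a} ha => (h2 p F S hS).2.1 a ha

theorem ordv_dvd {p : ℕ} {S : Set (HeightOneSpectrum (𝓞 F))} {u : Fˣ} (hu : u ∈ S.unit F) :
    ∀ W ∉ S, (p : ℤ) ∣ ordv W (u : F) := by
  intro W hW
  rw [(mem_unit_iff S u).1 hu W hW]
  exact dvd_zero _

/-- An `S`-unit in `LocS` is a `p`-th power. -/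
theorem unit_loc (h4 : H_A) {p : ℕ} [Fact p.Prime] {ε : F} {S : Set (HeightOneSpectrum (𝓞 F))}
    (hs : Sit p F ε S) {u : Fˣ} (hu : u ∈ S.unit F) (hl : LocS p S u) : Pw p u := by
  by_contra hP
  obtain ⟨m, ⟨W, hW, -⟩, -⟩ := h4 p F ε S hs u hl hP ∅ (by
    intro W
    refine ⟨fun h => absurd h (Finset.notMem_empty _), fun h => absurd (ordv_dvd hu W h.1) h.2⟩)
  exact absurd hW (Finset.notMem_empty _)

/-- The pairing on the `S`-units is not degenerate. -/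
theorem brk_inj (h3 : K_BRK) (h7 : L_HIT) {p : ℕ} [Fact p.Prime] {ε : F}
    {S : Set (HeightOneSpectrum (𝓞 F))} (hs : Sit p F ε S) {β : Fˣ} (hβ : β ∈ S.unit F)
    (h0 : ∀ α, brk p ε S β α = 0) : Pw p β := by
  classical
  by_contra hP
  let N : Subgroup (S.unit F) := (powMonoidHom p : S.unit F →* S.unit F).range
  have hN : ∀ x : S.unit F, x ^ p ∈ N := fun x => ⟨x, rfl⟩
  have hb : (⟨β, hβ⟩ : S.unit F) ∉ N := by
    rintro ⟨y, hy⟩
    apply hP
    refine ⟨(y : Fˣ), ?_⟩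
    have h1 := congrArg (fun z : S.unit F => (z : Fˣ)) hy
    exact h1.symm
  obtain ⟨φ, hφ⟩ := exists_hom N hN hb
  have hφ1 : φ ≠ 1 := by
    intro h
    apply hφ
    rw [h]; rfl
  obtain ⟨W, n, hWS, -, hn, hk⟩ := h7 p F ε S hs φ hφ1 ∅ Set.finite_empty
  obtain ⟨α, hα⟩ := hs.prin (Finsupp.single W 1)
  have h5 := (h3 p F ε S hs.prim hs.abp).2.2.2.1 β α {W} (by
    intro W' h
    rw [Finset.mem_singleton.1 h]
    exact hWS) (by
    intro W' hW' h
    rw [Finset.mem_singleton]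
    by_contra hne
    apply h
    rw [hα W' hW', Finsupp.single_eq_of_ne hne]
    exact dvd_zero _)
  rw [h0 α, Finset.sum_singleton, hα W hWS, Finsupp.single_eq_same] at h5
  have h6 := hk ⟨β, hβ⟩
  change kap p ε W β = _ at h6
  rw [h6] at h5
  have h7 : (φ ⟨β, hβ⟩).toAdd ≠ 0 := hφ
  have h8 : n * (φ ⟨β, hβ⟩).toAdd = 0 := by
    rw [Int.cast_one, one_mul] at h5
    exact h5.symm
  rcases mul_eq_zero.1 h8 with h | h
  · exact hn h
  · exact h7 h

/-- **R_DUA** (duality). -/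
theorem r_dua (h1 : K_BAS) (h2 : K_LOC) (h3 : K_BRK) (h4 : H_A) (h5 : L_IDX) (h6 : L_UNI)
    (h7 : L_HIT) (h8 : R_ONE) : Pool.Agent.Helper51.REC.R_DUA := by
  intro p _ F _ _ ε S hs
  refine ⟨fun β hβ h0 => brk_inj h3 h7 hs hβ h0, ?_⟩
  intro f hf hfU hfL
  obtain ⟨A0, hA0, hAU, hAP⟩ := h6 p F ε S hs
  have hc := hs.cplx
  have hd : 2 * S.ncard + finrank ℚ F = 2 * (S.ncard + finrank ℚ F / 2) := by
    have h9 := IsTotallyComplex.finrank (K := F)
    omega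
  have hb := h3 p F ε S hs.prim hs.abp
  refine dua_core (S.unit F) (locG h2 p S hs.fin) (Pw p) (brk p ε S) (S.ncard + finrank ℚ F / 2)
    (fun x => (h2 p F S hs.fin).2.2.1 x) ?_ A0 hA0 hAU hAP ?_ ?_ ?_ ?_ ?_ ?_ f hf hfU hfL
  · intro A hA
    rw [← hd]
    exact h5 p F ε S hs A hA
  · intro u hu hl
    exact unit_loc h4 hs hu hl
  · intro β _ a b
    exact hb.1 β a b
  · intro β hβ β' hβ' a
    exact hb.2.2.1 β β' a fun W hW => Or.inr ⟨ordv_dvd hβ W hW, ordv_dvd hβ' W hW⟩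
  · intro β _ u hu
    exact hb.2.1 β u (ordv_dvd hu)
  · intro β hβ x hx
    exact h8 p F ε S hs β hβ x hx
  · intro β hβ h0
    exact brk_inj h3 h7 hs hβ h0

end Pool.Agent.Helper70.REC
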